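import Pool.Agent.Run7.h135.P24.Rel
import Pool.Agent.Run7.h555.P15.Th

/-!
The Gross sums of level `24` are divisible by three.
-/

set_option autoImplicit false

namespace Run7.h555.P24

open Run7.h555.P15 (three_dvd_card)
open Pool.Agent.N969.P15 (V3)
open Pool.Agent.Run7.h135.P24 (ip vec rr rr0 cc mem_vec One)

/-- the rotation of order three -/
def rot (v : V3) : V3 := ![v 1, v 2, v 0]

lemma rot0 (v : V3) : rot v 0 = v 1 := rfl
lemma rot1 (v : V3) : rot v 1 = v 2 := rfl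
lemma rot2 (v : V3) : rot v 2 = v 0 := rfl

lemma rot_three (v : V3) : rot (rot (rot v)) = v := by
  funext i
  fin_cases i <;> rfl

lemma ip_rot (v : V3) : ip (rot v) (rot v) = ip v v := by
  unfold ip
  simp only [rot0, rot1, rot2]
  ring

lemma rot_ne {n : ℕ} (hn : ¬ 3 ∣ n) {v : V3} (hv : ip v v = n) : rot v ≠ v := by
  intro h
  have h0 := congrFun h 0
  have h1 := congrFun h 1
  rw [rot0] at h0
  rw [rot1] at h1
  unfold ip at hv
  rw [h1, h0] at hv
  apply hn
  have h3 : (3 : ℤ) ∣ n := ⟨v 0 * v 0, by rw [← hv]; ring⟩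
  exact_mod_cast h3

lemma one_rot {v : V3} (h : One v) : One (rot v) := ⟨h.2.1, h.2.2, h.1⟩

/-- **the Gross sums are divisible by three** -/
theorem three_dvd_cc {n : ℕ} (hn : ¬ 3 ∣ n) : (3 : ℤ) ∣ cc n := by
  have h1 : 3 ∣ (vec n).card := by
    refine three_dvd_card (vec n) rot (fun v hv => ?_) (fun v _ => rot_three v) (fun v hv => ?_)
    · rw [mem_vec] at hv ⊢
      exact ⟨by rw [ip_rot, hv.1], one_rot hv.2⟩
    · exact rot_ne hn ((mem_vec n v).1 hv).1
  have h2 : 3 ∣ ((vec n).filter fun v => (3 : ℤ) ∣ v 0 + v 1 + v 2).card := by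
    refine three_dvd_card _ rot (fun v hv => ?_) (fun v _ => rot_three v) (fun v hv => ?_)
    · rw [Finset.mem_filter, mem_vec] at hv ⊢
      refine ⟨⟨by rw [ip_rot, hv.1.1], one_rot hv.1.2⟩, ?_⟩
      rw [rot0, rot1, rot2]
      have := hv.2
      omega
    · rw [Finset.mem_filter] at hv
      exact rot_ne hn ((mem_vec n v).1 hv.1).1
  obtain ⟨a, ha⟩ := h1
  obtain ⟨b, hb⟩ := h2
  have hr : rr n = 3 * a := by unfold rr; rw [ha]; push_cast; ring
  have hr0 : rr0 n = 3 * b := by unfold rr0; rw [hb]; push_cast; ring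
  unfold cc
  rw [hr, hr0]
  split_ifs
  · exact ⟨a - 4 * b, by ring⟩
  · exact ⟨a - 2 * b, by ring⟩

end Run7.h555.P24
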