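import Pool.Agent.Run7.h555.TL.Lg
import Pool.Agent.Run7.h555.P24.Th
import Pool.Agent.Run7.h741.MH.Fin24
import Pool.Agent.Run7.h843.P24.Sign
import Pool.Agent.Run7.h843.P24.GF
import Pool.Agent.Run7.h483.P24.Fin
import Pool.Agent.Run7.h89.P24.M6

/-!
The `L`-functions of the twists by `-n` of `X_0(24)` and their exact central values.
-/

set_option autoImplicit false

open Complex Filter Topology Set UpperHalfPlane MatrixGroups CongruenceSubgroup ZMod

namespace Run7.h555.P24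

open Pool.Agent.W97.MT (affCount ap qq)
open Pool.Agent.Run7.h741.MH (E24 ff II form24)
open Pool.Agent.Run7.h843.P24.MS (kappa II_conj II_im kappa_eq kappa_pos)
open Pool.Agent.Run7.h843.P24.Lk (Gp)
open Pool.Agent.Run7.h135.P24 (Cls0 cc)
open Pool.Agent.N969.P15 (Qc)
open Run7.h89.P24 (CI WT ap_twist)

lemma II_add_one (r : ℚ) : II (r + 1) = II r := by
  unfold II
  congr 1
  refine MeasureTheory.setIntegral_congr_fun measurableSet_Ioi fun t ht => ?_
  show ff (((r + 1 : ℚ) : ℂ) + t * Complex.I) = ff ((r : ℂ) + t * Complex.I)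
  rw [← Pool.Agent.Run7.h741.MH.ff_add_one ((r : ℂ) + t * Complex.I)]
  congr 1
  push_cast
  ring

/-- **the `L`-function of the twist by `-n` and its central value** -/
theorem exists_Lex {n : ℕ} (hn : Squarefree n) (h4 : n % 4 = 3) (hco : n.Coprime 24) :
    ∃ F : ℂ → ℂ, Differentiable ℂ F ∧
      (∀ s : ℂ, 3 / 2 < s.re →
        HasProd (fun p : ℕ => if p.Prime then Run7.h555.TL.eul 24 n (ap (CI n)) s p else 1) (F s)) ∧
      F 1 * ((√n : ℝ) : ℂ) = ((kappa * ((∑ u ∈ Pool.Agent.N969.P15.un n, jacobiSym u n *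
          (-Gp u n) : ℤ) : ℝ) : ℝ) : ℂ) :=
  Run7.h555.TL.exists_L (Fp := fun u n => -Gp u n) (κ := kappa)
    Pool.Agent.Run7.h741.MH.facts_24 Pool.Agent.Run7.h741.MH.bd_24 II_add_one II_conj
    (fun u m h1 h2 h3 => by
      have h6 : IsCoprime m 6 := IsCoprime.of_isCoprime_of_dvd_right h3 ⟨4, by norm_num⟩
      rw [II_im h1 h2 h6]
      push_cast
      ring) hn h4 hco
    (a' := ap (CI n)) (fun _ hp => by
      have h := ap_twist (-(n : ℤ)) hp
      rw [Run7.h89.P24.WT_one] at h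
      exact h)

/-- **the exact central values of the twists of `X_0(24)`** -/
theorem center_ex {L : PeriodPair} {Op Om : ℝ} (hOm : 0 < Om) (g2 : L.g₂ = 52 / 3)
    (g3 : L.g₃ = -280 / 27)
    (hL : ∀ w : ℂ, w ∈ L.lattice ↔ ∃ a b : ℤ, w = a * Op + b * Om * Complex.I)
    {n : ℕ} (hn : Cls0 n) :
    ∃ F : ℂ → ℂ, Differentiable ℂ F ∧
      (∀ s : ℂ, 3 / 2 < s.re →
        HasProd (fun p : ℕ => if p.Prime then Run7.h555.TL.eul 24 n (ap (CI n)) s p else 1) (F s)) ∧
      ∃ w : ℤ, (Odd w ↔ Qc n) ∧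
        2 * F 1 * ((√n : ℝ) : ℂ) = ((Om * (2 ^ n.primeFactors.card * w) ^ 2 : ℝ) : ℂ) := by
  have h3n : ¬ 3 ∣ n := by
    have := hn.2
    omega
  have hco : n.Coprime 24 := by
    have h3 : Nat.Coprime n 3 := by
      rw [Nat.coprime_comm, Nat.Prime.coprime_iff_not_dvd Nat.prime_three]
      exact h3n
    have h2 : Nat.Coprime n 8 := by
      have h2' : Nat.Coprime n 2 := by
        rw [Nat.coprime_comm, Nat.Prime.coprime_iff_not_dvd Nat.prime_two]
        have := hn.2
        omega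
      exact Nat.Coprime.pow_right 3 h2'
    exact Nat.Coprime.mul_right h2 h3
  have h4 : n % 4 = 3 := by
    have := hn.2
    omega
  obtain ⟨F, hF, hprod, hval⟩ := exists_Lex hn.1 h4 hco
  obtain ⟨y, hy, hodd⟩ := Pool.Agent.Run7.h483.P24.par n hn
  have hd := Pool.Agent.Run7.h843.P24.Lk.diag_Gp Pool.Agent.Run7.h483.P24.diag hn
  have hk : kappa = Om := by
    rcases kappa_eq g2 g3 hOm hL with h | h
    · exact h
    · exfalso
      have := kappa_pos
      linarith
  have h3c : (3 : ℤ) ∣ cc n := three_dvd_cc h3n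
  obtain ⟨w, hw⟩ : (3 : ℤ) ∣ y := by
    have h5 : (3 : ℤ) ∣ 2 ^ n.primeFactors.card * y := by
      rw [← hy]
      exact Dvd.dvd.mul_left h3c 2
    rcases (Int.prime_three.dvd_mul).1 h5 with h6 | h6
    · exfalso
      have h7 := Int.prime_three.dvd_of_dvd_pow h6
      omega
    · exact h6
  refine ⟨F, hF, hprod, w, ?_, ?_⟩
  · rw [← hodd, hw, Int.odd_mul]
    constructor
    · intro h
      exact ⟨by decide, h⟩
    · intro h
      exact h.2
  have h1 : (2 : ℝ) * ((∑ u ∈ Pool.Agent.N969.P15.un n, jacobiSym u n * (-Gp u n) : ℤ) : ℝ) =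
      (2 ^ n.primeFactors.card * w) ^ 2 := by
    have e0 : (∑ u ∈ Pool.Agent.N969.P15.un n, jacobiSym u n * (-Gp u n) : ℤ) =
        -∑ u ∈ Pool.Agent.N969.P15.un n, jacobiSym u n * Gp u n := by
      rw [← Finset.sum_neg_distrib]
      refine Finset.sum_congr rfl fun u _ => by ring
    have h2 : ((18 * ∑ u ∈ Pool.Agent.N969.P15.un n, jacobiSym u n * (-Gp u n) : ℤ) : ℝ) =
        ((9 * (2 ^ n.primeFactors.card * w) ^ 2 : ℤ) : ℝ) := by
      congr 1
      have h9 : 2 * cc n = 3 * (2 ^ n.primeFactors.card * w) := by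
        rw [hy, hw]
        ring
      have h8 : (2 * cc n) ^ 2 = 9 * (2 ^ n.primeFactors.card * w) ^ 2 := by
        rw [h9]
        ring
      rw [e0]
      linarith
    push_cast at h2 ⊢
    linarith
  have h3 : 2 * F 1 * ((√n : ℝ) : ℂ) = 2 * (F 1 * ((√n : ℝ) : ℂ)) := by ring
  rw [h3, hval, hk, ← h1]
  push_cast
  ring

end Run7.h555.P24
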